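import Pool.Agent.N190.Bc.Main

/-!
# Weights of the components of numerically trivial cycles on `X ^ n × Y`

Let `k` be a field of any characteristic, and `W` a Weil cohomology theory with **any** coefficient
field `K` of characteristic zero (for instance `ℚ_ℓ`), on a class of smooth proper varieties over `k`
closed under products, `𝒢` a set of symmetries of `W` (for instance a Galois group), and `X` a variety
with `D(X)` such that the transcendental cohomology `T(X)` is concentrated in even degrees, or in odd
degrees: for instance a surface with `b₁ = 0`, a K3 surface, a hyperkähler variety without odd
cohomology, a curve, a hypersurface (with `D(X)`). Let `T(X)` be the direct sum of *blocks* `V_l`,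
`l ∈ Λ`, the images of orthogonal idempotents `p l` in the `K`-span of the algebraic correspondences,
the adjoint of `p l` for the cup product form being `p (bar l)`, such that each block is irreducible
under the algebraic correspondences and the symmetries. Let `𝒴` be **any** set of varieties such that
the conjecture D holds for all products of members of `𝒴`.

**Theorem.** For every `N` there are weights `v l ∈ ℝ` of the blocks, with `v (bar l) = - v l`, such
that for all `n ≤ N`, every product `Y` of members of `𝒴` and every cycle `z` on `X ^ n × Y` which is
numerically equivalent to zero: if the value of the class of `z` on the external product of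
`t_1, …, t_n` and of a class on `Y` is not zero, where each `t_i` is in a block `V_(l_i)` or an
algebraic class (with weight `0`), then the sum of the weights is negative. In particular the labels
are not *balanced* (the multiset of the `l_i` is not stable under `bar`); and no two numerically
trivial cycles (with the same or different `n`, `Y`) have nonzero components with opposite labels.
The class of `z` is zero as soon as all components are.

So `D(X ^ n × Y)` holds for all `n` and `Y` if `bar` is the identity.

Example. `k` is an algebraic closure of a finitely generated field `k₀` of characteristic `p > 0`, `W`
the `ℓ`-adic cohomology for **any** `ℓ ≠ p`, `X` a K3 surface over `k₀` with a center `E` of the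
algebra of the endomorphisms of the transcendental motive, `Λ` the set of the places of `E` above `ℓ`,
`bar` given by complex conjugation on `E`, `𝒢` the Galois group of a finite extension of `k₀`: the
blocks are irreducible by the Tate conjecture. The only obstruction to D for all `X ^ n × Y` and all
`ℓ` are therefore the components of negative weight for the places `l ≠ bar l`.

The proof is that of the theorem for abelian varieties in `Pool.Agent.R908` (Hilbert-Mumford and Kempf
for the orthogonal or symplectic group of `T(X)`, proved there), applied to the direct factor `T(X)`
of the motive of `X`; algebraic labels are removed by contraction.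
-/

open Pool.Agent.H914 Pool.Agent.H914.VarClass Pool.Agent.R908 Pool.Agent.N190.Bc

universe u v

namespace Pool.Agent.Results.MP_5f0950_ag.TranscendentalWeights

/-- **The weights of the components of numerically trivial cycles on the products of powers of a
variety with arbitrary varieties satisfying D.** -/
theorem result {k : Type u} [Field k] {𝒱 : VarClass k} {ops : CycleOps 𝒱}
    (W : WeilCohomology.{u, v} ops) (𝒢 : Set (Symmetry W)) (X : 𝒱.Obj) (hX : HomEqNum W X)
    (w : ℕ) (hw : HasParity W X w) {Λ : Type} [Fintype Λ] (bar : Λ → Λ)
    (p : Λ → Module.End W.K (W.H X)) (hp : IsTransBlockSystem 𝒢 X bar p) (𝒴 : Set 𝒱.Obj)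
    (hY : ∀ Y, IsProductOf 𝒴 Y → HomEqNum W Y) (N : ℕ) :
    ∃ v : Option Λ → ℝ, v none = 0 ∧ (∀ o, v (o.map bar) = -v o) ∧ ∀ n ≤ N, ∀ Y,
      IsProductOf 𝒴 Y → ∀ (j : ℕ) (z : (powTimes X Y n).Cycles),
        NumTrivial ops (powTimes X Y n) j z →
        NegativeValues (InPart W X p) bar v (value W z) ∧
          (W.cl _ z ≠ 0 → HasValue (InPart W X p) (value W z)) :=
  main 𝒢 hX hw bar p hp hY N

end Pool.Agent.Results.MP_5f0950_ag.TranscendentalWeights
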